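import Pool.Agent.Q63.RF.St

/-!
# Project RF of helper63: S_FELL (uniformization)
-/

set_option autoImplicit false

namespace Pool.Agent.Q208.RF.Fell

open MeasureTheory Filter Topology Pool.Agent.Q63.RF
open scoped ENNReal NNReal

theorem beta (j : ℕ) : ∀ (k : ℕ) (t : ℝ), ∫ s in (0 : ℝ)..t, s ^ j * (t - s) ^ k =
    (j.factorial : ℝ) * k.factorial / (j + k + 1).factorial * t ^ (j + k + 1) := by
  induction j with
  | zero =>
    intro k t
    have h1 : ∫ s in (0 : ℝ)..t, s ^ 0 * (t - s) ^ k = ∫ s in (0 : ℝ)..t, (t - s) ^ k := by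
      simp
    rw [h1, intervalIntegral.integral_comp_sub_left (fun u => u ^ k) t, sub_self, sub_zero,
      integral_pow, Nat.zero_add, Nat.factorial_succ]
    have h2 : (k.factorial : ℝ) ≠ 0 := by positivity
    have h3 : ((k : ℝ) + 1) ≠ 0 := by positivity
    push_cast
    simp only [Nat.factorial_zero, Nat.cast_one, one_mul]
    field_simp
    simp
  | succ j ih =>
    intro k t
    have hd : ∀ s : ℝ, HasDerivAt (fun s : ℝ => s ^ (j + 1) * (t - s) ^ (k + 1))
        (((j : ℝ) + 1) * (s ^ j * (t - s) ^ (k + 1)) -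
          ((k : ℝ) + 1) * (s ^ (j + 1) * (t - s) ^ k)) s := by
      intro s
      have h1 : HasDerivAt (fun s : ℝ => s ^ (j + 1)) (((j + 1 : ℕ) : ℝ) * s ^ j) s := by
        simpa using hasDerivAt_pow (j + 1) s
      have h2 : HasDerivAt (fun s : ℝ => (t - s) ^ (k + 1))
          (((k + 1 : ℕ) : ℝ) * (t - s) ^ k * (-1)) s := by
        have h3 : HasDerivAt (fun s : ℝ => t - s) (-1) s := by
          simpa using (hasDerivAt_id s).const_sub t
        simpa using h3.fun_pow (k + 1)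
      have h4 := h1.mul h2
      refine h4.congr_deriv ?_
      push_cast
      ring
    have hc1 : Continuous fun s : ℝ => s ^ j * (t - s) ^ (k + 1) := by fun_prop
    have hc2 : Continuous fun s : ℝ => s ^ (j + 1) * (t - s) ^ k := by fun_prop
    have hi : ∫ s in (0 : ℝ)..t, (((j : ℝ) + 1) * (s ^ j * (t - s) ^ (k + 1)) -
          ((k : ℝ) + 1) * (s ^ (j + 1) * (t - s) ^ k)) =
        t ^ (j + 1) * (t - t) ^ (k + 1) - 0 ^ (j + 1) * (t - 0) ^ (k + 1) := by
      refine intervalIntegral.integral_eq_sub_of_hasDerivAt (fun s _ => hd s) ?_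
      exact ((continuous_const.mul hc1).sub (continuous_const.mul hc2)).intervalIntegrable _ _
    have hc3 : Continuous fun s : ℝ => ((j : ℝ) + 1) * (s ^ j * (t - s) ^ (k + 1)) := by fun_prop
    have hc4 : Continuous fun s : ℝ => ((k : ℝ) + 1) * (s ^ (j + 1) * (t - s) ^ k) := by fun_prop
    rw [intervalIntegral.integral_sub (hc3.intervalIntegrable _ _)
      (hc4.intervalIntegrable _ _), intervalIntegral.integral_const_mul,
      intervalIntegral.integral_const_mul, ih (k + 1) t, sub_self, zero_pow (by omega),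
      zero_pow (by omega), mul_zero, zero_mul, sub_zero] at hi
    have h5 : ((k : ℝ) + 1) ≠ 0 := by positivity
    have h6 : ∫ s in (0 : ℝ)..t, s ^ (j + 1) * (t - s) ^ k = ((j : ℝ) + 1) / ((k : ℝ) + 1) *
        ((j.factorial : ℝ) * (k + 1).factorial / (j + (k + 1) + 1).factorial *
          t ^ (j + (k + 1) + 1)) := by
      rw [div_mul_eq_mul_div, eq_div_iff h5]
      linarith
    rw [h6, show j + (k + 1) + 1 = j + 1 + k + 1 by ring, Nat.factorial_succ k,
      Nat.factorial_succ j]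
    have h7 : ((j + 1 + k + 1).factorial : ℝ) ≠ 0 := by positivity
    push_cast
    field_simp

/-- the integral of the product of two Poisson weights -/
theorem lint (Λ : ℝ≥0) (hΛ : 0 < Λ) (t : ℝ) (ht : 0 ≤ t) (j k : ℕ) :
    ∫⁻ s in Set.Icc (0 : ℝ) t, pw Λ s j * pw Λ (t - s) k = pw Λ t (j + k + 1) / Λ := by
  have hL : (0 : ℝ) < (Λ : ℝ) := hΛ
  have h1 : ∀ s ∈ Set.Icc (0 : ℝ) t, pw Λ s j * pw Λ (t - s) k =
      ENNReal.ofReal (Real.exp (-((Λ : ℝ) * t)) * (Λ : ℝ) ^ (j + k) /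
        (j.factorial * k.factorial) * (s ^ j * (t - s) ^ k)) := by
    intro s hs
    unfold pw
    rw [← ENNReal.ofReal_mul (by have := hs.1; positivity)]
    congr 1
    have h2 : Real.exp (-((Λ : ℝ) * t)) =
        Real.exp (-((Λ : ℝ) * s)) * Real.exp (-((Λ : ℝ) * (t - s))) := by
      rw [← Real.exp_add]; congr 1; ring
    rw [h2, mul_pow, mul_pow, pow_add]
    field_simp
  rw [setLIntegral_congr_fun measurableSet_Icc h1]
  have hc : Continuous fun s : ℝ => Real.exp (-((Λ : ℝ) * t)) * (Λ : ℝ) ^ (j + k) /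
        (j.factorial * k.factorial) * (s ^ j * (t - s) ^ k) := by fun_prop
  rw [← ofReal_integral_eq_lintegral_ofReal hc.integrableOn_Icc]
  · rw [integral_Icc_eq_integral_Ioc, ← intervalIntegral.integral_of_le ht,
      intervalIntegral.integral_const_mul, beta]
    unfold pw
    rw [← ENNReal.ofReal_coe_nnreal, ← ENNReal.ofReal_div_of_pos hL]
    congr 1
    have h3 : (j.factorial : ℝ) ≠ 0 := by positivity
    have h4 : (k.factorial : ℝ) ≠ 0 := by positivity
    have h5 : ((j + k + 1).factorial : ℝ) ≠ 0 := by positivity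
    rw [mul_pow, pow_succ (Λ : ℝ) (j + k)]
    field_simp
  · refine (ae_restrict_mem measurableSet_Icc).mono fun s hs => ?_
    have h1 := hs.1
    have h2 : 0 ≤ t - s := sub_nonneg.2 hs.2
    simp only [Pi.zero_apply]
    positivity

/-- the exponential as a Poisson series -/
theorem eser (Λ q : ℝ≥0) (hΛ : 0 < Λ) (hq : q ≤ Λ) (t : ℝ) (ht : 0 ≤ t) :
    ENNReal.ofReal (Real.exp (-((q : ℝ) * t))) =
      ∑' N : ℕ, pw Λ t N * (((Λ - q) / Λ : ℝ≥0) : ℝ≥0∞) ^ N := by
  have hL : (0 : ℝ) < (Λ : ℝ) := hΛ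
  have h1 : ∀ N : ℕ, pw Λ t N * (((Λ - q) / Λ : ℝ≥0) : ℝ≥0∞) ^ N =
      ENNReal.ofReal (Real.exp (-((Λ : ℝ) * t)) *
        ((((Λ : ℝ) - q) * t) ^ N / N.factorial)) := by
    intro N
    unfold pw
    rw [← ENNReal.ofReal_coe_nnreal, ← ENNReal.ofReal_pow (by positivity),
      ← ENNReal.ofReal_mul (by positivity)]
    congr 1
    rw [NNReal.coe_div, NNReal.coe_sub hq, div_pow, mul_pow, mul_pow]
    field_simp
  have h2 : 0 ≤ (Λ : ℝ) - q := sub_nonneg.2 (NNReal.coe_le_coe.2 hq)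
  have h3 : HasSum (fun N : ℕ => Real.exp (-((Λ : ℝ) * t)) *
      ((((Λ : ℝ) - q) * t) ^ N / N.factorial))
      (Real.exp (-((Λ : ℝ) * t)) * Real.exp (((Λ : ℝ) - q) * t)) := by
    refine HasSum.mul_left _ ?_
    rw [Real.exp_eq_exp_ℝ]
    exact NormedSpace.expSeries_div_hasSum_exp (((Λ : ℝ) - q) * t)
  rw [tsum_congr h1, ← ENNReal.ofReal_tsum_of_nonneg (fun N => by positivity) h3.summable,
    h3.tsum_eq, ← Real.exp_add]
  congr 2
  ring

theorem meas_mul (Λ : ℝ≥0) (t : ℝ) (j k : ℕ) :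
    Measurable fun s : ℝ => pw Λ s j * pw Λ (t - s) k := by
  unfold pw
  fun_prop

section

variable {B W : Type} [Fintype B] [Group W] {M : CoxeterMatrix B}

/-- the expectation over the event of exactly `n` crossings in `N` steps -/
noncomputable def K (cs : CoxeterSystem M W) (Λ : ℝ≥0) (a : W → B → ℝ≥0) (f : W → ℝ≥0∞) :
    ℕ → ℕ → W → ℝ≥0∞
  | 0, N, x => (((Λ - tot a x) / Λ : ℝ≥0) : ℝ≥0∞) ^ N * f x
  | _ + 1, 0, _ => 0
  | n + 1, N + 1, x => (((Λ - tot a x) / Λ : ℝ≥0) : ℝ≥0∞) * K cs Λ a f (n + 1) N x +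
      ∑ i, ((a x i / Λ : ℝ≥0) : ℝ≥0∞) * K cs Λ a f n N (x * cs.simple i)

variable (cs : CoxeterSystem M W) (Λ : ℝ≥0) (a : W → B → ℝ≥0) (f : W → ℝ≥0∞)

theorem K_zero (N : ℕ) (x : W) :
    K cs Λ a f 0 N x = (((Λ - tot a x) / Λ : ℝ≥0) : ℝ≥0∞) ^ N * f x := by
  rw [K]

theorem K_succ_zero (n : ℕ) (x : W) : K cs Λ a f (n + 1) 0 x = 0 := by
  rw [K]

theorem K_succ_succ (n N : ℕ) (x : W) : K cs Λ a f (n + 1) (N + 1) x =
    (((Λ - tot a x) / Λ : ℝ≥0) : ℝ≥0∞) * K cs Λ a f (n + 1) N x +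
      ∑ i, ((a x i / Λ : ℝ≥0) : ℝ≥0∞) * K cs Λ a f n N (x * cs.simple i) := by
  rw [K]

theorem sumK (N : ℕ) : ∀ x, ∑' n, K cs Λ a f n N x = (stepE cs Λ a)^[N] f x := by
  induction N with
  | zero =>
    intro x
    rw [tsum_eq_zero_add' ENNReal.summable]
    simp [K_zero, K_succ_zero]
  | succ N ih =>
    intro x
    rw [tsum_eq_zero_add' ENNReal.summable, Function.iterate_succ_apply', stepE]
    simp only [K_succ_succ]
    rw [ENNReal.tsum_add, ENNReal.tsum_mul_left, ← ih x,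
      tsum_eq_zero_add' (f := fun n => K cs Λ a f n N x) ENNReal.summable, mul_add, ← add_assoc]
    congr 1
    · congr 1
      rw [K_zero, K_zero, pow_succ', mul_assoc]
    · rw [Summable.tsum_finsetSum (fun _ _ => ENNReal.summable)]
      refine Finset.sum_congr rfl fun i _ => ?_
      rw [ENNReal.tsum_mul_left, ih]

theorem K_unroll (n N : ℕ) (x : W) : K cs Λ a f (n + 1) (N + 1) x =
    ∑ p ∈ Finset.HasAntidiagonal.antidiagonal N, (((Λ - tot a x) / Λ : ℝ≥0) : ℝ≥0∞) ^ p.1 *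
      ∑ i, ((a x i / Λ : ℝ≥0) : ℝ≥0∞) * K cs Λ a f n p.2 (x * cs.simple i) := by
  induction N with
  | zero =>
    rw [K_succ_succ, K_succ_zero]
    simp
  | succ N ih =>
    rw [K_succ_succ, ih, Finset.Nat.sum_antidiagonal_succ, Finset.mul_sum, add_comm]
    simp only [pow_zero, one_mul]
    congr 1
    refine Finset.sum_congr rfl fun p _ => ?_
    rw [pow_succ', mul_assoc]

theorem jump (hΛ : 0 < Λ) (ha : ∀ x, tot a x ≤ Λ) (n : ℕ) : ∀ (t : ℝ), 0 ≤ t → ∀ x : W,
    jumpE cs a f n t x = ∑' N, pw Λ t N * K cs Λ a f n N x := by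
  induction n with
  | zero =>
    intro t ht x
    rw [jumpE, eser Λ (tot a x) hΛ (ha x) t ht, ← ENNReal.tsum_mul_right]
    refine tsum_congr fun N => ?_
    rw [K_zero, mul_assoc]
  | succ n ih =>
    intro t ht x
    have hΛ' : (Λ : ℝ≥0∞) ≠ 0 := by exact_mod_cast hΛ.ne'
    set g : ℕ → ℝ≥0∞ := fun k =>
      ∑ i, ((a x i / Λ : ℝ≥0) : ℝ≥0∞) * K cs Λ a f n k (x * cs.simple i) with hg
    set κ : ℝ≥0∞ := (((Λ - tot a x) / Λ : ℝ≥0) : ℝ≥0∞) with hκ
    -- the right-hand side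
    have hR : ∑' N, pw Λ t N * K cs Λ a f (n + 1) N x =
        ∑' j : ℕ, ∑' k : ℕ, pw Λ t (j + k + 1) * (κ ^ j * g k) := by
      rw [tsum_eq_zero_add' ENNReal.summable, K_succ_zero, mul_zero, zero_add,
        ← ENNReal.tsum_prod (f := fun j k => pw Λ t (j + k + 1) * (κ ^ j * g k)),
        ← (Finset.HasAntidiagonal.sigmaAntidiagonalEquivProd (A := ℕ)).tsum_eq, ENNReal.tsum_sigma']
      refine tsum_congr fun N => ?_
      simp only [Finset.HasAntidiagonal.sigmaAntidiagonalEquivProd_apply]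
      rw [tsum_fintype, Finset.sum_coe_sort (Finset.HasAntidiagonal.antidiagonal N)
        (fun p => pw Λ t (p.1 + p.2 + 1) * (κ ^ p.1 * g p.2)), K_unroll, Finset.mul_sum]
      refine Finset.sum_congr rfl fun p hp => ?_
      rw [Finset.HasAntidiagonal.mem_antidiagonal.1 hp]
    have hL : jumpE cs a f (n + 1) t x = ∫⁻ s in Set.Icc (0 : ℝ) t,
        ∑' j : ℕ, ∑' k : ℕ, (κ ^ j * (Λ * g k)) * (pw Λ s j * pw Λ (t - s) k) := by
      rw [jumpE]
      refine setLIntegral_congr_fun measurableSet_Icc fun s hs => ?_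
      rw [eser Λ (tot a x) hΛ (ha x) s hs.1, ← ENNReal.tsum_mul_right]
      refine tsum_congr fun j => ?_
      have h1 : ∑ i, (a x i : ℝ≥0∞) * jumpE cs a f n (t - s) (x * cs.simple i) =
          ∑' k, pw Λ (t - s) k * (Λ * g k) := by
        have h2 : ∀ i, (a x i : ℝ≥0∞) * jumpE cs a f n (t - s) (x * cs.simple i) =
            ∑' k, pw Λ (t - s) k *
              (Λ * (((a x i / Λ : ℝ≥0) : ℝ≥0∞) * K cs Λ a f n k (x * cs.simple i))) := by
          intro i
          rw [ih (t - s) (sub_nonneg.2 hs.2), ← ENNReal.tsum_mul_left]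
          refine tsum_congr fun k => ?_
          rw [← mul_assoc (Λ : ℝ≥0∞), ← ENNReal.coe_mul, mul_div_cancel₀ _ hΛ.ne']
          ring
        rw [Finset.sum_congr rfl fun i _ => h2 i,
          ← Summable.tsum_finsetSum (fun _ _ => ENNReal.summable)]
        refine tsum_congr fun k => ?_
        rw [hg, Finset.mul_sum, Finset.mul_sum]
      rw [h1, ← ENNReal.tsum_mul_left]
      refine tsum_congr fun k => ?_
      rw [← hκ]
      ring
    rw [hL, hR, lintegral_tsum (fun j => ?_)]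
    · refine tsum_congr fun j => ?_
      rw [lintegral_tsum (fun k => ?_)]
      · refine tsum_congr fun k => ?_
        rw [lintegral_const_mul _ (meas_mul Λ t j k), lint Λ hΛ t ht j k,
          ENNReal.div_eq_inv_mul]
        have h3 : (Λ : ℝ≥0∞) * (Λ : ℝ≥0∞)⁻¹ = 1 := ENNReal.mul_inv_cancel hΛ' ENNReal.coe_ne_top
        calc κ ^ j * (Λ * g k) * ((Λ : ℝ≥0∞)⁻¹ * pw Λ t (j + k + 1))
            = ((Λ : ℝ≥0∞) * (Λ : ℝ≥0∞)⁻¹) * (pw Λ t (j + k + 1) * (κ ^ j * g k)) := by ring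
          _ = pw Λ t (j + k + 1) * (κ ^ j * g k) := by rw [h3, one_mul]
      · exact ((meas_mul Λ t j k).const_mul _).aemeasurable
    · refine (Measurable.ennreal_tsum fun k => ?_).aemeasurable
      exact (meas_mul Λ t j k).const_mul _

end

theorem fell : S_FELL := by
  intro B W _ _ M cs a Λ hΛ ha f t ht x
  rw [walkE]
  simp only [jump cs Λ a f hΛ ha _ t ht x, ← sumK cs Λ a f]
  rw [ENNReal.tsum_comm]
  exact tsum_congr fun N => ENNReal.tsum_mul_left

end Pool.Agent.Q208.RF.Fell
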