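import Pool.Agent.Q63.RF.St

/-!
# Project RF of helper63: S_LYAP (a function that increases in the mean)
-/

set_option autoImplicit false

namespace Pool.Agent.Q208.RF.Lyap

open Pool.Agent.Q63.RF

section Lists

variable {n : ℕ}

/-- lists of pairs of a type and a set of generators -/
abbrev Ls (n : ℕ) : Type := List (ℤˣ × Finset (Fin n))

/-- the set of type `τ` at the head of the list -/
def hd (τ : ℤˣ) : Ls n → Finset (Fin n)
  | [] => ∅
  | p :: _ => if p.1 = τ then p.2 else ∅

/-- the rest of the list -/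
def tl (τ : ℤˣ) : Ls n → Ls n
  | [] => []
  | p :: L => if p.1 = τ then L else p :: L

/-- put a set of type `τ` in front of the list -/
def mk (τ : ℤˣ) (u : Finset (Fin n)) (L : Ls n) : Ls n := if u = ∅ then L else (τ, u) :: L

/-- the head has not the type `τ` -/
def Fr (τ : ℤˣ) : Ls n → Prop
  | [] => True
  | p :: _ => p.1 ≠ τ

/-- normal forms -/
def WF : Ls n → Prop
  | [] => True
  | p :: L => p.2 ≠ ∅ ∧ Fr p.1 L ∧ WF L

theorem fr_tl (τ : ℤˣ) {L : Ls n} (h : WF L) : Fr τ (tl τ L) := by
  cases L with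
  | nil => trivial
  | cons p L =>
    rw [tl]
    split_ifs with h1
    · rw [← h1]; exact h.2.1
    · exact h1

theorem wf_tl (τ : ℤˣ) {L : Ls n} (h : WF L) : WF (tl τ L) := by
  cases L with
  | nil => trivial
  | cons p L =>
    rw [tl]
    split_ifs with h1
    · exact h.2.2
    · exact h

theorem mk_hd_tl (τ : ℤˣ) {L : Ls n} (h : WF L) : mk τ (hd τ L) (tl τ L) = L := by
  cases L with
  | nil => simp [mk, hd, tl]
  | cons p L =>
    rw [mk, hd, tl]
    split_ifs with h1 h2 h3
    · exact absurd h2 h.1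
    · rw [← h1]
    · rfl
    · exact absurd rfl h3

theorem hd_mk {τ : ℤˣ} (u : Finset (Fin n)) {L : Ls n} (h : Fr τ L) : hd τ (mk τ u L) = u := by
  rw [mk]
  split_ifs with h1
  · rw [h1]
    cases L with
    | nil => rfl
    | cons p L => rw [hd, if_neg h]
  · rw [hd, if_pos rfl]

theorem tl_mk {τ : ℤˣ} (u : Finset (Fin n)) {L : Ls n} (h : Fr τ L) : tl τ (mk τ u L) = L := by
  rw [mk]
  split_ifs with h1
  · cases L with
    | nil => rfl
    | cons p L => rw [tl, if_neg h]
  · rw [tl, if_pos rfl]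

theorem wf_mk {τ : ℤˣ} (u : Finset (Fin n)) {L : Ls n} (h : Fr τ L) (h' : WF L) :
    WF (mk τ u L) := by
  rw [mk]
  split_ifs with h1
  · exact h'
  · exact ⟨h1, h, h'⟩

/-- the action of the generator `(τ, j)` -/
def push (τ : ℤˣ) (j : Fin n) (L : Ls n) : Ls n := mk τ (symmDiff (hd τ L) {j}) (tl τ L)

theorem wf_push (τ : ℤˣ) (j : Fin n) {L : Ls n} (h : WF L) : WF (push τ j L) :=
  wf_mk _ (fr_tl τ h) (wf_tl τ h)

theorem push_push (τ : ℤˣ) (i j : Fin n) {L : Ls n} (h : WF L) :
    push τ i (push τ j L) = mk τ (symmDiff (symmDiff (hd τ L) {j}) {i}) (tl τ L) := by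
  rw [push, push, hd_mk _ (fr_tl τ h), tl_mk _ (fr_tl τ h)]

theorem push_self (τ : ℤˣ) (j : Fin n) {L : Ls n} (h : WF L) : push τ j (push τ j L) = L := by
  rw [push_push τ j j h, symmDiff_symmDiff_cancel_right, mk_hd_tl τ h]

theorem push_comm (τ : ℤˣ) (i j : Fin n) {L : Ls n} (h : WF L) :
    push τ i (push τ j L) = push τ j (push τ i L) := by
  rw [push_push τ i j h, push_push τ j i h, symmDiff_right_comm]

/-- the normal forms -/
abbrev X (n : ℕ) : Type := {L : Ls n // WF L}

/-- the action of the generator `(τ, j)` on normal forms -/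
def pp (τ : ℤˣ) (j : Fin n) : Equiv.Perm (X n) :=
  Function.Involutive.toPerm (fun L => ⟨push τ j L.1, wf_push τ j L.2⟩)
    (fun L => Subtype.ext (push_self τ j L.2))

theorem pp_apply (τ : ℤˣ) (j : Fin n) (L : X n) : (pp τ j L).1 = push τ j L.1 := rfl

theorem pp_sq (τ : ℤˣ) (j : Fin n) : pp τ j * pp τ j = 1 := by
  ext1 L
  exact Subtype.ext (push_self τ j L.2)

theorem pp_comm (τ : ℤˣ) (i j : Fin n) : pp τ i * pp τ j = pp τ j * pp τ i := by
  ext1 L
  exact Subtype.ext (push_comm τ i j L.2)

/-- the total number of generators in the list -/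
def wt (L : Ls n) : ℝ := (L.map fun p => (p.2.card : ℝ)).sum

theorem wt_cons (p : ℤˣ × Finset (Fin n)) (L : Ls n) : wt (p :: L) = p.2.card + wt L := by
  simp [wt]

theorem wt_mk (τ : ℤˣ) (u : Finset (Fin n)) (L : Ls n) : wt (mk τ u L) = u.card + wt L := by
  rw [mk]
  split_ifs with h
  · rw [h]; simp
  · rw [wt_cons]

theorem wt_nonneg (L : Ls n) : 0 ≤ wt L := by
  unfold wt
  refine List.sum_nonneg fun x hx => ?_
  obtain ⟨p, _, rfl⟩ := List.mem_map.1 hx
  positivity

theorem card_sd (u : Finset (Fin n)) (j : Fin n) :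
    (symmDiff u {j}).card = if j ∈ u then u.card - 1 else u.card + 1 := by
  split_ifs with h
  · have h1 : symmDiff u {j} = u.erase j := by
      ext x
      rw [Finset.mem_symmDiff, Finset.mem_erase, Finset.mem_singleton]
      constructor
      · rintro (h1 | h1)
        · exact ⟨h1.2, h1.1⟩
        · exact absurd (h1.1 ▸ h) h1.2
      · exact fun h1 => Or.inl ⟨h1.2, h1.1⟩
    rw [h1, Finset.card_erase_of_mem h]
  · have h1 : symmDiff u {j} = insert j u := by
      ext x
      rw [Finset.mem_symmDiff, Finset.mem_insert, Finset.mem_singleton]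
      constructor
      · rintro (h1 | h1)
        · exact Or.inr h1.1
        · exact Or.inl h1.1
      · rintro (h1 | h1)
        · exact Or.inr ⟨h1, h1 ▸ h⟩
        · exact Or.inl ⟨h1, fun h2 => h (h2 ▸ h1)⟩
    rw [h1, Finset.card_insert_of_notMem h]

theorem wt_push_le (τ : ℤˣ) (j : Fin n) {L : Ls n} (h : WF L) : wt (push τ j L) ≤ wt L + 1 := by
  have h1 : wt L = (hd τ L).card + wt (tl τ L) := by
    conv_lhs => rw [← mk_hd_tl τ h]
    exact wt_mk _ _ _
  rw [push, wt_mk, h1]
  have h2 : ((symmDiff (hd τ L) {j}).card : ℝ) ≤ (hd τ L).card + 1 := by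
    have : (symmDiff (hd τ L) {j}).card ≤ (hd τ L).card + 1 := by
      rw [card_sd]
      split_ifs <;> omega
    exact_mod_cast this
  linarith

variable (α ζ : ℝ)

/-- the Lyapunov function on lists -/
noncomputable def G (τ : ℤˣ) : Ls n → ℝ
  | [] => 0
  | p :: L => wt L + (if p.1 = τ then α else 1 - ζ) * p.2.card

variable {α ζ}

theorem G_nonneg (h0 : 0 ≤ α) (h2 : ζ ≤ 1) (τ : ℤˣ) (L : Ls n) : 0 ≤ G α ζ τ L := by
  cases L with
  | nil => exact le_rfl
  | cons p L =>
    rw [G]
    have := wt_nonneg L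
    have h3 : 0 ≤ (if p.1 = τ then α else 1 - ζ) := by split_ifs <;> linarith
    positivity

theorem G_le (h1 : α ≤ 1) (h0 : 0 ≤ ζ) (τ : ℤˣ) (L : Ls n) : G α ζ τ L ≤ wt L := by
  cases L with
  | nil => simp [G, wt]
  | cons p L =>
    rw [G, wt_cons]
    have h3 : (if p.1 = τ then α else 1 - ζ) ≤ 1 := by split_ifs <;> linarith
    have h4 : (0 : ℝ) ≤ p.2.card := by positivity
    nlinarith

theorem G_fr (h0 : 0 ≤ ζ) {τ : ℤˣ} {L : Ls n} (h : Fr τ L) : wt L - ζ * n ≤ G α ζ τ L := by
  cases L with
  | nil =>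
    have : 0 ≤ ζ * n := by positivity
    simp only [G, wt, List.map_nil, List.sum_nil]
    linarith
  | cons p L =>
    rw [G, wt_cons, if_neg h]
    have h1 : (p.2.card : ℝ) ≤ n := by
      exact_mod_cast (Finset.card_le_univ p.2).trans_eq (Fintype.card_fin n)
    nlinarith

theorem ineq (hn : 2 ≤ n) {ρ : ℝ} (hρ : 0 < ρ) (h0 : 0 < α) (h1 : 1 - α = 2 * ρ * α)
    (h2 : (n : ℝ) * ζ = 2 * α) (hz : 0 ≤ ζ) (τ : ℤˣ) {L : Ls n} (h : WF L) :
    α * (ρ * (n - 2) - 2) ≤ ρ * ∑ j : Fin n, (G α ζ τ (push τ j L) - G α ζ τ L) +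
      (G α ζ (-τ) L - G α ζ τ L) := by
  have hn' : (2 : ℝ) ≤ n := by exact_mod_cast hn
  have hρα : 0 < ρ * α := mul_pos hρ h0
  cases L with
  | nil =>
    have h3 : ∀ j : Fin n, G α ζ τ (push τ j ([] : Ls n)) - G α ζ τ ([] : Ls n) = α := by
      intro j
      have h4 : push τ j ([] : Ls n) = [(τ, {j})] := by
        rw [push, hd, tl, mk]
        simp
      rw [h4]
      simp [G, wt]
    rw [Finset.sum_congr rfl fun j _ => h3 j]
    simp only [G, Finset.sum_const, Finset.card_univ, Fintype.card_fin, nsmul_eq_mul]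
    nlinarith
  | cons p L =>
    obtain ⟨σ, u⟩ := p
    have hk : (u.card : ℝ) ≤ n := by
      exact_mod_cast (Finset.card_le_univ u).trans_eq (Fintype.card_fin n)
    have hk0 : 0 < u.card := Finset.card_pos.2 (Finset.nonempty_iff_ne_empty.2 h.1)
    have hζk : ζ * u.card ≤ 2 * α := by nlinarith
    by_cases hσ : σ = τ
    · subst hσ
      have hne : σ ≠ -σ := units_ne_neg_self σ
      set e : ℝ := if u.card = 1 then 2 * α else 0 with he
      have he0 : 0 ≤ e := by rw [he]; split_ifs <;> linarith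
      have h3 : ∀ j : Fin n, (if j ∈ u then -α - e else α) ≤
          G α ζ σ (push σ j ((σ, u) :: L)) - G α ζ σ ((σ, u) :: L) := by
        intro j
        rw [push, hd, tl, if_pos rfl, if_pos rfl, mk, G, if_pos rfl]
        have hc := card_sd u j
        split_ifs with h4 h5 h5
        · -- the set becomes empty
          rw [if_pos h4, h5, Finset.card_empty] at hc
          have hu1 : u.card = 1 := by omega
          have h6 : e = 2 * α := by rw [he, if_pos hu1]
          have h7 : wt L - ζ * n ≤ G α ζ σ L := G_fr hz h.2.1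
          simp only [hu1, Nat.cast_one, mul_one]
          rw [h6]
          linarith
        · rw [if_pos h4] at hc
          rw [G, if_pos rfl]
          simp only
          have h6 : ((symmDiff u {j}).card : ℝ) = u.card - 1 := by
            rw [hc, Nat.cast_sub hk0, Nat.cast_one]
          rw [h6]
          linarith
        · rw [if_neg h4, h5, Finset.card_empty] at hc
          omega
        · rw [if_neg h4] at hc
          rw [G, if_pos rfl]
          simp only
          rw [hc]
          push_cast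
          linarith
      have h4 : ∑ j : Fin n, (if j ∈ u then -α - e else α) =
          α * (n - 2 * u.card) - e * u.card := by
        have h5 : ∀ j : Fin n, (if j ∈ u then -α - e else α) =
            α + (if j ∈ u then -(2 * α) - e else 0) := by
          intro j
          split_ifs <;> ring
        rw [Finset.sum_congr rfl fun j _ => h5 j, Finset.sum_add_distrib, Finset.sum_ite_mem,
          Finset.univ_inter]
        simp only [Finset.sum_const, Finset.card_univ, Fintype.card_fin, nsmul_eq_mul]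
        ring
      have h5 := Finset.sum_le_sum fun j (_ : j ∈ Finset.univ) => h3 j
      rw [h4] at h5
      have h6 : G α ζ (-σ) ((σ, u) :: L) - G α ζ σ ((σ, u) :: L) =
          (2 * ρ * α - ζ) * u.card := by
        rw [G, G, if_neg hne, if_pos rfl, ← h1]
        ring
      rw [h6]
      have h7 : ρ * (α * (n - 2 * u.card) - e * u.card) ≤
          ρ * ∑ j : Fin n, (G α ζ σ (push σ j ((σ, u) :: L)) - G α ζ σ ((σ, u) :: L)) :=
        mul_le_mul_of_nonneg_left h5 hρ.le
      have h8 : e * u.card ≤ 2 * α := by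
        rw [he]
        split_ifs with h9
        · rw [h9]; simp
        · rw [zero_mul]; linarith
      have h9 : ρ * (e * u.card) ≤ ρ * (2 * α) := mul_le_mul_of_nonneg_left h8 hρ.le
      have h10 : ρ * (α * (n - 2 * u.card) - e * u.card) + (2 * ρ * α - ζ) * u.card =
          ρ * α * n - ρ * (e * u.card) - ζ * u.card := by ring
      nlinarith
    · have hσ' : σ = -τ := Int.units_ne_iff_eq_neg.1 hσ
      have h3 : ∀ j : Fin n, G α ζ τ (push τ j ((σ, u) :: L)) - G α ζ τ ((σ, u) :: L) =
          ζ * u.card + α := by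
        intro j
        have h4 : push τ j ((σ, u) :: L) = (τ, {j}) :: (σ, u) :: L := by
          rw [push, hd, tl, if_neg hσ, if_neg hσ, mk]
          simp
        rw [h4, G, G, if_pos rfl, if_neg hσ, wt_cons]
        simp only [Finset.card_singleton, Nat.cast_one]
        ring
      rw [Finset.sum_congr rfl fun j _ => h3 j]
      have h6 : G α ζ (-τ) ((σ, u) :: L) - G α ζ τ ((σ, u) :: L) =
          (ζ - 2 * ρ * α) * u.card := by
        rw [G, G, if_pos hσ', if_neg hσ, ← h1]
        ring
      rw [h6]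
      simp only [Finset.sum_const, Finset.card_univ, Fintype.card_fin, nsmul_eq_mul]
      have h7 : ρ * ((n : ℝ) * (ζ * u.card + α)) + (ζ - 2 * ρ * α) * u.card =
          ρ * n * α + ζ * u.card + ρ * ((n : ℝ) * ζ - 2 * α) * u.card := by ring
      rw [h7, h2, sub_self, mul_zero, zero_mul, add_zero]
      have h8 : 0 ≤ ζ * u.card := by positivity
      nlinarith

end Lists

section Action

variable {n d : ℕ}

/-- the action of the generators -/
def act : Gen n d → Equiv.Perm (X n)
  | .inl p => pp p.1 p.2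
  | .inr _ => 1

theorem liftable_act : (MW n d).IsLiftable (act (n := n) (d := d)) := by
  intro x y
  rcases x with p | k <;> rcases y with q | l
  · change (pp p.1 p.2 * pp q.1 q.2) ^ (if p.1 = q.1 then (if p.2 = q.2 then 1 else 2) else 0) = 1
    split_ifs with h1 h2
    · rw [h1, h2, pow_one, pp_sq]
    · rw [h1, pow_two, mul_assoc, ← mul_assoc (pp q.1 q.2) (pp q.1 p.2), pp_comm q.1 q.2 p.2,
        mul_assoc (pp q.1 p.2), pp_sq, mul_one, pp_sq]
    · rw [pow_zero]
  · change (pp p.1 p.2 * 1) ^ 2 = 1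
    rw [mul_one, pow_two, pp_sq]
  · change (1 * pp q.1 q.2) ^ 2 = 1
    rw [one_mul, pow_two, pp_sq]
  · change ((1 : Equiv.Perm (X n)) * 1) ^ _ = 1
    rw [mul_one, one_pow]

/-- the action of the group on normal forms -/
noncomputable def Psi : WG n d →* Equiv.Perm (X n) := (csW n d).lift ⟨_, liftable_act⟩

/-- the normal form -/
noncomputable def nf (x : WG n d) : X n := Psi x⁻¹ ⟨[], trivial⟩

theorem nf_mul (x : WG n d) (i : Gen n d) :
    nf (x * (csW n d).simple i) = act i (nf x) := by
  have h : Psi ((csW n d).simple i) = act i :=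
    CoxeterSystem.lift_apply_simple (csW n d) liftable_act i
  rw [nf, mul_inv_rev, (csW n d).inv_simple, map_mul, Equiv.Perm.mul_apply, h, nf]

theorem wt_nf (x : WG n d) : wt (nf x).1 ≤ ((csW n d).length x : ℝ) := by
  obtain ⟨ω, hω, rfl⟩ := (csW n d).exists_isReduced x
  have hω' : (csW n d).length ((csW n d).wordProd ω) = ω.length := hω
  rw [hω']
  clear hω hω'
  induction ω using List.reverseRecOn with
  | nil => simp [nf, wt]
  | append_singleton ω i ih =>
    rw [CoxeterSystem.wordProd_append, CoxeterSystem.wordProd_singleton, nf_mul,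
      List.length_append, List.length_singleton]
    push_cast
    rcases i with p | k
    · exact (wt_push_le p.1 p.2 (nf _).2).trans (by linarith)
    · change wt (nf _).1 ≤ _
      linarith

end Action

theorem lyap : S_LYAP := by
  intro n d ρ hn hρ
  have hn' : (2 : ℝ) ≤ n := by exact_mod_cast hn
  set α : ℝ := (1 + 2 * ρ)⁻¹ with hα
  set ζ : ℝ := 2 * α / n with hζ
  have h0 : 0 < α := by rw [hα]; positivity
  have h1 : 1 - α = 2 * ρ * α := by
    rw [hα]; field_simp; ring
  have h2 : (n : ℝ) * ζ = 2 * α := by rw [hζ]; field_simp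
  have hz : 0 ≤ ζ := by rw [hζ]; positivity
  have hα1 : α ≤ 1 := by nlinarith
  have hz1 : ζ ≤ 1 := by nlinarith
  refine ⟨fun τ x => G α ζ τ (nf x).1, fun τ x => ⟨G_nonneg h0.le hz1 τ _,
    (G_le hα1 hz τ _).trans (wt_nf x)⟩, fun τ x k => ?_, fun τ x => ?_⟩
  · change G α ζ τ (nf (x * (csW n d).simple (.inr k))).1 = _
    rw [nf_mul]
    rfl
  · have h3 : ∀ j : Fin n, (nf (x * ga τ j)).1 = push τ j (nf x).1 := by
      intro j
      rw [ga, nf_mul]
      rfl
    simp only [h3]
    exact ineq hn hρ h0 h1 h2 hz τ (nf x).2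

end Pool.Agent.Q208.RF.Lyap
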